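import Pool.Agent.X84.Fm.Defs
import Pool.Agent.H718R2.G0
import Pool.Agent.TH80.OMS.Defs
import Pool.Agent.TH80.OMS.SymDefs
import Pool.Agent.W564.SC.Defs

/-!
# Definitions: first integrals and fields which are preserved up to a positive factor
-/

open scoped Topology ContDiff Manifold
open Set Filter

set_option autoImplicit false
set_option linter.unusedSectionVars false

noncomputable section

namespace Pool.Agent.X84.Fi

open Pool.Agent.X84.Fm.Defs

universe u v w

section general

variable {E : Type u} [NormedAddCommGroup E] [NormedSpace ℝ E]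
  {P : Type v} [TopologicalSpace P] [ChartedSpace E P]

/-- `dH_x(v)` -/
def dH {W : Type w} [NormedAddCommGroup W] [NormedSpace ℝ W] (H : P → W) (x : P)
    (v : TangentSpace 𝓘(ℝ, E) x) : W :=
  mfderiv 𝓘(ℝ, E) 𝓘(ℝ, W) H x v

/-- `DF_x(v)` -/
def DF (F : P → P) (x : P) (v : TangentSpace 𝓘(ℝ, E) x) : TangentSpace 𝓘(ℝ, E) (F x) :=
  mfderiv 𝓘(ℝ, E) 𝓘(ℝ, E) F x v

/-- `F` maps the field `X` to a positive (continuous) multiple of `X`. -/
def KeepsDirection (F : P → P) (X : Field E P) : Prop :=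
  ∃ c : P → ℝ, Continuous c ∧ (∀ x, 0 < c x) ∧ ∀ x, DF F x (X x) = c x • X (F x)

/-- `X x ≠ 0` spans the kernel of `dH` at `x` (so the rank of `dH` at `x` is `dim P - 1`). -/
def Regular {k : ℕ} (X : Field E P) (H : P → Fin k → ℝ) (x : P) : Prop :=
  X x ≠ 0 ∧ ∀ v, dH H x v = 0 → ∃ c : ℝ, v = c • X x

/-- fields of bilinear forms -/
abbrev Form (E : Type u) [NormedAddCommGroup E] [NormedSpace ℝ E]
    (P : Type v) [TopologicalSpace P] [ChartedSpace E P] :=
  (x : P) → TangentSpace 𝓘(ℝ, E) x →L[ℝ] TangentSpace 𝓘(ℝ, E) x →L[ℝ] ℝ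

/-- `B_x(u, v)` -/
def ev (B : Form E P) (x : P) (u v : TangentSpace 𝓘(ℝ, E) x) : ℝ := B x u v

/-- `F^* B = c B` with a positive (continuous) function `c` -/
def Rescales (F : P → P) (B : Form E P) : Prop :=
  ∃ c : P → ℝ, Continuous c ∧ (∀ x, 0 < c x) ∧
    ∀ x u v, ev B (F x) (DF F x u) (DF F x v) = c x * ev B x u v

end general

variable (E : Type u) [NormedAddCommGroup E] [NormedSpace ℝ E] [FiniteDimensional ℝ E]
  {P : Type v} [TopologicalSpace P] [ChartedSpace E P] [IsManifold 𝓘(ℝ, E) ∞ P]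
  [T2Space P] [CompactSpace P]

/-- The components of the `C^∞` map `H` are first integrals of `F` and of the `C^∞` field `X`, and
`F` maps `X` to a positive multiple of `X`. -/
def FirstIntegrals {k : ℕ} (F : P → P) (X : Field E P) (H : P → Fin k → ℝ) : Prop :=
  X ∈ SmoothFields E P ∧ ContMDiff 𝓘(ℝ, E) 𝓘(ℝ, Fin k → ℝ) ∞ H ∧ (∀ x, H (F x) = H x) ∧
    (∀ x, dH H x (X x) = 0) ∧ KeepsDirection F X

/-- `B` is a `C^∞` field of nondegenerate alternating bilinear forms (on a surface: an area form)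
with `F^* B = c B`, `c > 0`. -/
def Oriented (F : P → P) (B : Form E P) : Prop :=
  SmoothForm B ∧ (∀ x u, ev B x u u = 0) ∧ (∀ x u, (∀ v, ev B x u v = 0) → u = 0) ∧ Rescales F B

/-- `h` is a `C^∞` first integral of `F`, and `F` is `Oriented` for some `B`. -/
def Integral (F : P → P) (h : P → ℝ) : Prop :=
  ContMDiff 𝓘(ℝ, E) 𝓘(ℝ, ℝ) ∞ h ∧ (∀ x, h (F x) = h x) ∧ ∃ B : Form E P, Oriented E F B

/-- the critical points of `h` -/
def CritSet (h : P → ℝ) : Set P := {x | mfderiv 𝓘(ℝ, E) 𝓘(ℝ, ℝ) h x = 0}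

section limit

open Pool.Agent.H718R2.G Pool.Agent.TH80.OMS Pool.Agent.W564.SC

/-- `z` is a limit of regular nonwandering points of a map `F` with first integrals. -/
def RegularLimit {k : ℕ} (F : P → P) (X : Field E P) (H : P → Fin k → ℝ) (z : P) : Prop :=
  FirstIntegrals E F X H ∧ z ∈ closure {y | y ∈ Omega F ∧ Regular X H y}

/-- Every neighbourhood of `F` in `Diff^r(N)` contains some `F'` with first integrals for which `z`
is a limit of regular nonwandering points. -/
def Approximable (n : ℕ) (N : Type u) [TopologicalSpace N] [T2Space N] [CompactSpace N]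
    [ChartedSpace (V n) N] [IsManifold (𝓡 n) ∞ N] (r : ℕ∞) (F : DiffM n N r) (z : N) : Prop :=
  ∀ U : Set (DiffM n N r), IsOpen[strongTop n N r] U → F ∈ U →
    ∃ F' ∈ U, ∃ (k : ℕ) (X : Field (V n) N) (H : N → Fin k → ℝ), RegularLimit (V n) F' X H z

variable {n : ℕ} {N : Type v} [TopologicalSpace N] [ChartedSpace (V n) N] {r : ℕ∞}

/-- The closing lemma holds for `F` at the limits of nonwandering points outside `S`, and at all
nonwandering points if at most countably many nonwandering points in `S` are not limits of periodic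
points. -/
def ClosingOff (F : DiffM n N r) (S : Set N) : Prop :=
  (∀ z ∈ closure (Omega F \ S), Closable n N r F z) ∧
    (((Omega F ∩ S) \ closure (Per F)).Countable → ∀ z ∈ Omega F, Closable n N r F z)

/-- all members of a sequence of open dense sets of `Diff^r(N)` have the property `A` -/
def Generic (A : DiffM n N r → Prop) : Prop :=
  ∃ R : ℕ → Set (DiffM n N r), (∀ j, IsOpen[strongTop n N r] (R j)) ∧
    (∀ j, @Dense _ (strongTop n N r) (R j)) ∧ ∀ f, (∀ j, f ∈ R j) → A f

end limit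

end Pool.Agent.X84.Fi
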