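import Pool.Agent.X84.Fi.Time

/-!
# Near a regular point the fibres of the first integrals are orbit arcs
-/

open scoped Topology ContDiff Manifold RealInnerProductSpace
open Set Filter

set_option autoImplicit false
set_option linter.unusedSectionVars false

noncomputable section

namespace Pool.Agent.X84.Fi

open Pool.Agent.H718R2.G Pool.Agent.TH290.CL Pool.Agent.W564.SC
open Pool.Agent.X84.Fl Pool.Agent.X84.Fm
open Pool.Agent.Helper186 Pool.Agent.H826R2.Wein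

universe u

theorem strict_injOn {E F : Type*} [NormedAddCommGroup E] [NormedSpace ℝ E]
    [FiniteDimensional ℝ E] [NormedAddCommGroup F] [NormedSpace ℝ F] {f : E → F} {f' : E →L[ℝ] F}
    {a : E} (hf : HasStrictFDerivAt f f' a) (hinj : Function.Injective f') :
    ∃ s ∈ 𝓝 a, InjOn f s := by
  obtain ⟨K, hK, hanti⟩ := (f' : E →ₗ[ℝ] F).exists_antilipschitzWith (LinearMap.ker_eq_bot.2 hinj)
  have hK' : (0 : ℝ) < K := hK
  have h1 := hf.isLittleO.def (c := 1 / (2 * K)) (by positivity)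
  rw [nhds_prod_eq] at h1
  obtain ⟨s, hs, h2⟩ := (Filter.eventually_prod_self_iff' (la := 𝓝 a)).1 h1
  refine ⟨s, hs, fun x hx y hy hxy => ?_⟩
  have h3 := h2 x hx y hy
  simp only [hxy, sub_self, zero_sub, norm_neg] at h3
  have h4 := hanti.le_mul_dist x y
  rw [dist_eq_norm, dist_eq_norm] at h4
  have e : (f' : E →ₗ[ℝ] F) x - (f' : E →ₗ[ℝ] F) y = f' (x - y) := by
    rw [map_sub]; rfl
  rw [e] at h4
  have h5 : ‖f' (x - y)‖ ≤ 1 / 2 * ‖f' (x - y)‖ := by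
    calc ‖f' (x - y)‖ ≤ 1 / (2 * K) * ‖x - y‖ := h3
      _ ≤ 1 / (2 * K) * (K * ‖f' (x - y)‖) := by gcongr
      _ = 1 / 2 * ‖f' (x - y)‖ := by field_simp
  have h6 : ‖f' (x - y)‖ = 0 := by
    have := norm_nonneg (f' (x - y))
    linarith
  have h7 : ‖x - y‖ ≤ 0 := by rw [h6, mul_zero] at h4; exact h4
  exact sub_eq_zero.1 (norm_eq_zero.1 (le_antisymm h7 (norm_nonneg _)))

variable {n : ℕ} {N : Type u} [TopologicalSpace N] [T2Space N] [CompactSpace N]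
  [ChartedSpace (V n) N] [IsManifold (𝓡 n) ∞ N]

/-- **Local structure.** -/
theorem local_arc {X : (x : N) → TangentSpace (𝓡 n) x} {φ : Flow ℝ N}
    (hφ : IsFl (E := V n) X φ) {E' : Type*} [NormedAddCommGroup E'] [NormedSpace ℝ E']
    {H : N → E'} (hH : ContMDiff (𝓡 n) 𝓘(ℝ, E') ∞ H) (hinv : ∀ t y, H (φ t y) = H y) {z : N}
    (hXz : X z ≠ 0)
    (hker : ∀ v, mfderiv (𝓡 n) 𝓘(ℝ, E') H z v = 0 → ∃ c : ℝ, v = c • X z) {δ : ℝ} (hδ : 0 < δ) :
    ∃ W ∈ 𝓝 z, ∀ y ∈ W, ∀ y' ∈ W, H y = H y' → ∃ d : ℝ, |d| < δ ∧ y' = φ d y := by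
  let χ := chartAt (V n) z
  have hz : z ∈ χ.source := mem_chart_source _ z
  have hzt : χ z ∈ χ.target := χ.map_source hz
  have hmd : χ.MDifferentiable (𝓡 n) (𝓡 n) := mdifferentiable_chart (I := 𝓡 n) z
  have hsymm : ∀ v : TangentSpace (𝓡 n) z, mfderiv (𝓡 n) (𝓡 n) χ.symm (χ z)
      (mfderiv (𝓡 n) (𝓡 n) χ z v) = v := fun v => by
    have := hmd.symm_comp_deriv hz
    exact DFunLike.congr_fun this v
  have hsymm' : ∀ w : V n, mfderiv (𝓡 n) (𝓡 n) χ z (mfderiv (𝓡 n) (𝓡 n) χ.symm (χ z) w) = w := by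
    intro w
    have h := hmd.comp_symm_deriv hzt
    rw [χ.left_inv hz] at h
    exact DFunLike.congr_fun h w
  obtain ⟨a, ha⟩ : ∃ a : V n, a = mfderiv (𝓡 n) (𝓡 n) χ z (X z) := ⟨_, rfl⟩
  have ha0 : a ≠ 0 := by
    intro h0
    apply hXz
    rw [← hsymm (X z), ← ha, h0]
    exact map_zero _
  have hapos : 0 < ⟪a, a⟫ := real_inner_self_pos.2 ha0
  let ℓ : V n →L[ℝ] ℝ := innerSL ℝ a
  have hℓ : ∀ w, ℓ w = ⟪a, w⟫ := fun w => innerSL_apply_apply ℝ a w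
  -- the map `(H, ℓ)` in the chart
  have hKd : ContDiffAt ℝ ∞ (fun v => H (χ.symm v)) (χ z) := by
    rw [← contMDiffAt_iff_contDiffAt]
    have h4 : ContMDiffOn (𝓡 n) (𝓡 n) ∞ χ.symm χ.target :=
      contMDiffOn_symm_of_mem_maximalAtlas (IsManifold.chart_mem_maximalAtlas z)
    exact hH.contMDiffAt.comp _ (h4.contMDiffAt (χ.open_target.mem_nhds hzt))
  have hK1 : HasStrictFDerivAt (fun v => H (χ.symm v))
      (fderiv ℝ (fun v => H (χ.symm v)) (χ z)) (χ z) := hKd.hasStrictFDerivAt (by simp)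
  have hK2 : HasStrictFDerivAt (fun v => (H (χ.symm v), ℓ v))
      ((fderiv ℝ (fun v => H (χ.symm v)) (χ z)).prod ℓ) (χ z) :=
    hK1.prodMk ℓ.hasStrictFDerivAt
  have hchain : ∀ w : V n, fderiv ℝ (fun v => H (χ.symm v)) (χ z) w =
      mfderiv (𝓡 n) 𝓘(ℝ, E') H z (mfderiv (𝓡 n) (𝓡 n) χ.symm (χ z) w) := by
    intro w
    have hs : MDifferentiableAt (𝓡 n) (𝓡 n) χ.symm (χ z) := hmd.mdifferentiableAt_symm hzt
    have hd : MDifferentiableAt (𝓡 n) 𝓘(ℝ, E') H (χ.symm (χ z)) :=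
      hH.contMDiffAt.mdifferentiableAt (by simp)
    have h1 := mfderiv_comp (I := 𝓡 n) (I' := 𝓡 n) (I'' := 𝓘(ℝ, E')) (χ z) hd hs
    rw [mfderiv_eq_fderiv, χ.left_inv hz] at h1
    exact DFunLike.congr_fun h1 w
  have hinj : Function.Injective ((fderiv ℝ (fun v => H (χ.symm v)) (χ z)).prod ℓ) := by
    rw [injective_iff_map_eq_zero]
    intro w hw
    have h1 : fderiv ℝ (fun v => H (χ.symm v)) (χ z) w = 0 := congrArg Prod.fst hw
    have h2 : ℓ w = 0 := congrArg Prod.snd hw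
    rw [hchain] at h1
    obtain ⟨c, hc⟩ := hker _ h1
    have h3 : w = c • a := by
      rw [← hsymm' w, hc, map_smul, ha]
      rfl
    rw [h3, hℓ, inner_smul_right] at h2
    rcases mul_eq_zero.1 h2 with h | h
    · rw [h3, h, zero_smul]
    · exact absurd h hapos.ne'
  obtain ⟨s, hs, hsinj⟩ := strict_injOn hK2 hinj
  -- the neighbourhood on which it is injective
  have hV0 : χ.source ∩ χ ⁻¹' s ∈ 𝓝 z :=
    inter_mem (χ.open_source.mem_nhds hz) ((χ.continuousAt hz).preimage_mem_nhds hs)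
  have hflow : Continuous fun q : ℝ × N => φ q.1 q.2 :=
    φ.continuous continuous_fst continuous_snd
  have hev : ∀ᶠ q in 𝓝 ((0 : ℝ), z), φ q.1 q.2 ∈ χ.source ∩ χ ⁻¹' s := by
    apply hflow.continuousAt.eventually_mem
    simp only [Flow.map_zero_apply]
    exact hV0
  rw [nhds_prod_eq, Filter.eventually_prod_iff] at hev
  obtain ⟨p1, hp1, p2, hp2, hp⟩ := hev
  obtain ⟨δ1, hδ1, hball1⟩ := Metric.eventually_nhds_iff.1 hp1
  -- the derivative of `ℓ ∘ χ` along the orbit of `z`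
  have hder : HasDerivAt (fun t => ℓ (χ (φ t z))) ⟪a, a⟫ 0 := by
    have h1 := hφ z 0
    have e0 : φ (0 : ℝ) z = z := Flow.map_zero_apply _ _
    have h2 : HasMFDerivAt (𝓡 n) (𝓡 n) χ (φ (0 : ℝ) z) (mfderiv (𝓡 n) (𝓡 n) χ (φ (0 : ℝ) z)) :=
      (hmd.mdifferentiableAt (by rw [e0]; exact hz)).hasMFDerivAt
    have h3 := h2.comp (0 : ℝ) h1
    have h4 := hasMFDerivAt_iff_hasFDerivAt.1 h3
    have h5 := (ℓ.hasFDerivAt.comp (0 : ℝ) h4).hasDerivAt
    have h6 : (ℓ.comp (((mfderiv (𝓡 n) (𝓡 n) χ (φ (0 : ℝ) z)).comp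
        (ContinuousLinearMap.smulRight (1 : ℝ →L[ℝ] ℝ) (X (φ (0 : ℝ) z)))))) 1 = ⟪a, a⟫ := by
      show ℓ (mfderiv (𝓡 n) (𝓡 n) χ (φ (0 : ℝ) z) ((1 : ℝ) • X (φ (0 : ℝ) z))) = ⟪a, a⟫
      rw [one_smul, e0, ← ha, hℓ]
    rw [← h6]
    exact h5
  have hslope := hasDerivAt_iff_tendsto_slope.1 hder
  have hsl := hslope.eventually_const_lt hapos
  rw [eventually_nhdsWithin_iff] at hsl
  obtain ⟨ρ, hρ, hball2⟩ := Metric.eventually_nhds_iff.1 hsl
  obtain ⟨δ', h0, h1, h2, h3⟩ : ∃ δ' : ℝ, 0 < δ' ∧ δ' < δ ∧ δ' < δ1 ∧ δ' < ρ := by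
    refine ⟨min δ (min δ1 ρ) / 2, ?_, ?_, ?_, ?_⟩
    · have := lt_min hδ (lt_min hδ1 hρ)
      linarith
    · have := lt_min hδ (lt_min hδ1 hρ)
      linarith [min_le_left δ (min δ1 ρ)]
    · have := lt_min hδ (lt_min hδ1 hρ)
      linarith [min_le_right δ (min δ1 ρ), min_le_left δ1 ρ]
    · have := lt_min hδ (lt_min hδ1 hρ)
      linarith [min_le_right δ (min δ1 ρ), min_le_right δ1 ρ]
  have hgt : ℓ (χ z) < ℓ (χ (φ δ' z)) := by
    have h5 := hball2 (y := δ') (by rw [Real.dist_eq, sub_zero, abs_of_pos h0]; exact h3) h0.ne'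
    rw [slope_def_field] at h5
    simp only [Flow.map_zero_apply, sub_zero] at h5
    have := (div_pos_iff_of_pos_right h0).1 h5
    linarith
  have hlt : ℓ (χ (φ (-δ') z)) < ℓ (χ z) := by
    have h5 := hball2 (y := -δ') (by rw [Real.dist_eq, sub_zero, abs_neg, abs_of_pos h0]; exact h3)
      (neg_ne_zero.2 h0.ne')
    rw [slope_def_field] at h5
    simp only [Flow.map_zero_apply, sub_zero] at h5
    rw [div_neg, neg_pos] at h5
    have := (div_lt_iff₀ h0).1 h5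
    linarith
  obtain ⟨c1, hc1, hc1'⟩ := exists_between hgt
  obtain ⟨c2, hc2, hc2'⟩ := exists_between hlt
  have hin : ∀ t y, |t| < δ1 → p2 y → φ t y ∈ χ.source ∩ χ ⁻¹' s := fun t y ht hy =>
    hp (hball1 (by rw [Real.dist_eq, sub_zero]; exact ht)) hy
  have hp2z : p2 z := hp2.self_of_nhds
  have habs : |δ'| < δ1 := by rw [abs_of_pos h0]; exact h2
  have habs' : |-δ'| < δ1 := by rw [abs_neg]; exact habs
  have hcc : ∀ t, |t| < δ1 → ContinuousAt (fun y => ℓ (χ (φ t y))) z := by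
    intro t ht
    refine ℓ.continuous.continuousAt.comp ?_
    exact (χ.continuousAt (hin t z ht hp2z).1).comp
      (φ.continuous continuous_const continuous_id).continuousAt
  have hc0 : ContinuousAt (fun y => ℓ (χ y)) z := ℓ.continuous.continuousAt.comp (χ.continuousAt hz)
  have hW : {y | p2 y ∧ c1 < ℓ (χ (φ δ' y)) ∧ ℓ (χ (φ (-δ') y)) < c2 ∧ ℓ (χ y) < c1 ∧
      c2 < ℓ (χ y) ∧ y ∈ χ.source ∩ χ ⁻¹' s} ∈ 𝓝 z := by
    filter_upwards [hp2, (hcc δ' habs).eventually_const_lt hc1',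
      (hcc (-δ') habs').eventually_lt_const hc2, hc0.eventually_lt_const hc1,
      hc0.eventually_const_lt hc2', hV0] with y k1 k2 k3 k4 k5 k6
    exact ⟨k1, k2, k3, k4, k5, k6⟩
  refine ⟨_, hW, ?_⟩
  rintro y ⟨k1, k2, k3, -, -, -⟩ y' ⟨-, -, -, k4, k5, k6⟩ hyy
  have hcont : ContinuousOn (fun t => ℓ (χ (φ t y))) (Icc (-δ') δ') := by
    refine ℓ.continuous.comp_continuousOn ?_
    refine χ.continuousOn.comp (φ.continuous continuous_id continuous_const).continuousOn ?_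
    intro t ht
    exact (hin t y (abs_lt.2 ⟨by linarith [ht.1], by linarith [ht.2]⟩) k1).1
  obtain ⟨d, ⟨hd1, hd2⟩, hd⟩ := intermediate_value_Icc (show -δ' ≤ δ' by linarith) hcont
    (show ℓ (χ y') ∈ Icc _ _ from ⟨by linarith, by linarith⟩)
  have hdabs : |d| < δ1 := abs_lt.2 ⟨by linarith, by linarith⟩
  refine ⟨d, abs_lt.2 ⟨by linarith, by linarith⟩, ?_⟩
  have q1 := hin d y hdabs k1
  have q2 : χ (φ d y) = χ y' := by
    apply hsinj q1.2 k6.2
    show (H (χ.symm (χ (φ d y))), ℓ (χ (φ d y))) = (H (χ.symm (χ y')), ℓ (χ y'))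
    rw [χ.left_inv q1.1, χ.left_inv k6.1, hinv, hyy]
    simp only at hd
    rw [hd]
  exact (χ.injOn q1.1 k6.1 q2).symm

end Pool.Agent.X84.Fi
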