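import Pool.Agent.X84.Fi.Loc
import Pool.Agent.X84.Fi.Defs
import Pool.Agent.X204.CLN

/-!
# The `C^r` closing lemma for maps with first integrals
-/

open scoped Topology ContDiff Manifold
open Set Filter

set_option autoImplicit false
set_option linter.unusedSectionVars false

noncomputable section

namespace Pool.Agent.X84.Fi

open Pool.Agent.H718R2.G Pool.Agent.TH290.CL Pool.Agent.W564.SC Pool.Agent.TH80.OMS
open Pool.Agent.X84.Fl Pool.Agent.X84.Fm.Defs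
open Pool.Agent.Helper186 Pool.Agent.H826R2.Wein

universe u

variable {n : ℕ} {N : Type u} [TopologicalSpace N] [T2Space N] [CompactSpace N]
  [ChartedSpace (V n) N] [IsManifold (𝓡 n) ∞ N]

/-- the situation, with integrals in a normed space -/
structure Sit {r : ℕ∞} (F : DiffM n N r) (X : (x : N) → TangentSpace (𝓡 n) x) {E' : Type*}
    [NormedAddCommGroup E'] [NormedSpace ℝ E'] (H : N → E') : Prop where
  sm : SmF (E := V n) X
  hH : ContMDiff (𝓡 n) 𝓘(ℝ, E') ∞ H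
  hF : ∀ x, H (F x) = H x
  hX : ∀ x, mfderiv (𝓡 n) 𝓘(ℝ, E') H x (X x) = 0
  dir : ∃ c : N → ℝ, Continuous c ∧ (∀ x, 0 < c x) ∧
      ∀ x, mfderiv (𝓡 n) (𝓡 n) F x (X x) = c x • X (F x)

/-- regular points -/
def Rg (X : (x : N) → TangentSpace (𝓡 n) x) {E' : Type*}
    [NormedAddCommGroup E'] [NormedSpace ℝ E'] (H : N → E') (x : N) : Prop :=
  X x ≠ 0 ∧ ∀ v, mfderiv (𝓡 n) 𝓘(ℝ, E') H x v = 0 → ∃ c : ℝ, v = c • X x

variable {r : ℕ∞} {F : DiffM n N r} {X : (x : N) → TangentSpace (𝓡 n) x} {E' : Type*}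
    [NormedAddCommGroup E'] [NormedSpace ℝ E'] {H : N → E'}

theorem Sit.const (hS : Sit F X H) {φ : Flow ℝ N} (hφ : IsFl (E := V n) X φ) (t : ℝ) (y : N) :
    H (φ t y) = H y := by
  have hd : ∀ t, HasDerivAt (fun t => H (φ t y)) 0 t := by
    intro t
    have h1 := hφ y t
    have h2 : HasMFDerivAt (𝓡 n) 𝓘(ℝ, E') H (φ t y) (mfderiv (𝓡 n) 𝓘(ℝ, E') H (φ t y)) :=
      (hS.hH.contMDiffAt.mdifferentiableAt (by simp)).hasMFDerivAt
    have h4 := hasMFDerivAt_iff_hasFDerivAt.1 (h2.comp t h1)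
    obtain ⟨L, hL⟩ : ∃ L : ℝ →L[ℝ] E', L = ((mfderiv (𝓡 n) 𝓘(ℝ, E') H (φ t y)).comp
        (ContinuousLinearMap.smulRight (1 : ℝ →L[ℝ] ℝ) (X (φ t y)))) := ⟨_, rfl⟩
    have h7 : HasFDerivAt (fun t => H (φ t y)) L t := by
      rw [hL]
      exact h4
    have h6 : L = 0 := by
      apply ContinuousLinearMap.ext
      intro s
      rw [hL]
      show mfderiv (𝓡 n) 𝓘(ℝ, E') H (φ t y) (s • X (φ t y)) = (0 : E')
      rw [map_smul, hS.hX]
      exact smul_zero s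
    have h3 : HasFDerivAt (fun t => H (φ t y)) (0 : ℝ →L[ℝ] E') t := h6 ▸ h7
    have h5 := h3.hasDerivAt
    exact h5
  have h1 := is_const_of_deriv_eq_zero (f := fun t => H (φ t y))
    (fun t => (hd t).differentiableAt) (fun t => (hd t).deriv) t 0
  simpa using h1

/-- what closes points near `z` -/
def Pr {r : ℕ∞} (F : DiffM n N r) (φ : Flow ℝ N) (z : N) : Prop :=
  ∀ W ∈ 𝓝 z, ∀ κ : ℝ, 0 < κ → ∃ y ∈ W, ∃ ε : ℝ, |ε| < κ ∧ IsPer (fun x => φ ε (F x)) y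

theorem Sit.pr (hr : 1 ≤ r) (hS : Sit F X H) {φ : Flow ℝ N} (hφ : IsFl (E := V n) X φ) {z : N}
    (hz : z ∈ Omega F) (hzR : Rg X H z) : Pr F φ z := by
  intro W hW κ hκ
  obtain ⟨c, hc, hc0, hcF⟩ := hS.dir
  obtain ⟨θ, h1, h2, h3, h4⟩ := exists_theta hr F hS.sm hφ hc hc0 hcF
  obtain ⟨W', hW', harc⟩ := local_arc hφ hS.hH (hS.const hφ) hzR.1 hzR.2 hκ
  obtain ⟨O, hO, hOo, hzO⟩ := mem_nhds_iff.1 (inter_mem hW hW')
  obtain ⟨m, hm, y, hy, hym⟩ := hz O hOo hzO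
  have hHm : ∀ k, H (F^[k] y) = H y := by
    intro k
    induction k with
    | zero => rfl
    | succ k ih => rw [Function.iterate_succ_apply', hS.hF, ih]
  obtain ⟨d, hd, hdy⟩ := harc y (hO hy).2 _ (hO hym).2 (hHm m).symm
  obtain ⟨ε, hε, hper⟩ := push (ψ := fun t x => φ t x) (F := F) (fun s t y => φ.map_add s t y)
    (fun y => Flow.map_zero_apply _ _) h1 h2 h3 h4 hm hdy
  exact ⟨y, (hO hy).1, ε, hε.trans_lt hd, m, hm, hper⟩

theorem Pr.closure {φ : Flow ℝ N} {z : N} (h : z ∈ _root_.closure {y | Pr F φ y}) :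
    Pr F φ z := by
  intro W hW κ hκ
  obtain ⟨O, hO, hOo, hzO⟩ := mem_nhds_iff.1 hW
  obtain ⟨y, hyO, hy⟩ := mem_closure_iff.1 h O hOo hzO
  obtain ⟨y', hy', h'⟩ := hy O (hOo.mem_nhds hyO) κ hκ
  exact ⟨y', hO hy', h'⟩

theorem Pr.closable (hr : 1 ≤ r) (hX : SmF (E := V n) X) {φ : Flow ℝ N}
    (hφ : IsFl (E := V n) X φ) {z : N} (h : Pr F φ z) : Closable n N r F z :=
  closable_of_push hr F (isFlow_of hX hφ) z h

/-- (1) -/
theorem Sit.closable (hr : 1 ≤ r) (hS : Sit F X H) {z : N}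
    (hz : z ∈ closure {y | y ∈ Omega F ∧ Rg X H y}) : Closable n N r F z := by
  obtain ⟨φ, hφ⟩ := exists_flow hS.sm
  exact Pr.closable hr hS.sm hφ (Pr.closure (closure_mono (fun y hy => hS.pr hr hφ hy.1 hy.2) hz))

/-- (2) -/
theorem Sit.closable_countable (hr : 1 ≤ r) (hS : Sit F X H)
    (hc : ({y | y ∈ Omega F ∧ ¬ Rg X H y} \ closure (Per F)).Countable)
    {z : N} (hz : z ∈ Omega F) : Closable n N r F z := by
  obtain ⟨φ, hφ⟩ := exists_flow hS.sm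
  by_cases hP : Pr F φ z
  · exact Pr.closable hr hS.sm hφ hP
  · unfold Pr at hP
    push Not at hP
    obtain ⟨W, hW, κ, hκ, hno⟩ := hP
    obtain ⟨O, hO, hOo, hzO⟩ := mem_nhds_iff.1 hW
    refine (Pool.Agent.X204.CLN.main hr F).2 z hz O hOo hzO (hc.mono ?_)
    rintro y ⟨hyO, hy, hyC⟩
    refine ⟨⟨hy, fun hyR => ?_⟩, fun hyP => hyC ?_⟩
    · obtain ⟨y', hy', ε, hε, hper⟩ := hS.pr hr hφ hy hyR O (hOo.mem_nhds hyO) κ hκ
      exact hno y' (hO hy') ε hε hper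
    · exact closure_mono (fun x hx => Or.inl (Pool.Agent.X204.CLN.isHomPer_of_per F x hx)) hyP

/-- **Limits.** -/
theorem closable_limit (hr : 1 ≤ r) (F : DiffM n N r) (z : N) (h : Approximable n N r F z) :
    Closable n N r F z := by
  intro U hU hFU
  obtain ⟨F', hF', k, X, H, ⟨h1, h2, h3, h4, h5⟩, hz⟩ := h U hU hFU
  have hS : Sit F' X H := ⟨h1, h2, h3, h4, h5⟩
  exact hS.closable hr hz U hU hF'

/-- **Generic diffeomorphisms.** -/
theorem generic (hr : 1 ≤ r) : ∃ R : ℕ → Set (DiffM n N r), (∀ j, IsOpen[strongTop n N r] (R j)) ∧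
    (∀ j, @Dense _ (strongTop n N r) (R j)) ∧
    ∀ f : DiffM n N r, (∀ j, f ∈ R j) → ∀ z, Approximable n N r f z → z ∈ closure (Per f) := by
  obtain ⟨R, hR1, hR2, hR3⟩ := Pool.Agent.Y368.GG.generic_closable (n := n) (N := N) r hr
  exact ⟨R, hR1, hR2, fun f hf z hz => hR3 f hf z (closable_limit hr f z hz)⟩

theorem closable_countable (hr : 1 ≤ r) (F : DiffM n N r) {k : ℕ} (X : Field (V n) N)
    (H : N → Fin k → ℝ) (h : FirstIntegrals (V n) F X H)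
    (hc : ({y | y ∈ Omega F ∧ ¬ Regular (E := V n) X H y} \ closure (Per F)).Countable)
    (z : N) (hz : z ∈ Omega F) : Closable n N r F z := by
  obtain ⟨h1, h2, h3, h4, h5⟩ := h
  have hS : Sit F X H := ⟨h1, h2, h3, h4, h5⟩
  exact hS.closable_countable hr hc hz

end Pool.Agent.X84.Fi
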