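import Pool.Agent.TH290.CL.Flow
import Pool.Agent.TH80.CLX.Fam
import Pool.Agent.W564.SC.Lib

/-!
# Closing by moving along a flow whose orbits are mapped to orbits
-/

open scoped Topology ContDiff Manifold
open Set Filter

set_option autoImplicit false
set_option linter.unusedSectionVars false

noncomputable section

namespace Pool.Agent.X84.Fi

open Pool.Agent.H718R2.G Pool.Agent.TH290.CL Pool.Agent.W564.SC Pool.Agent.TH80.CLX

universe u

section push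

variable {N : Type u} {ψ : ℝ → N → N} {F : N → N} {θ : N → ℝ → ℝ}

/-- the total displacement -/
def disp (θ : N → ℝ → ℝ) (F : N → N) (y : N) : ℕ → ℝ → ℝ
  | 0, _ => 0
  | j + 1, ε => ε + θ (F^[j] y) (disp θ F y j ε)

theorem iter_push (hadd : ∀ s t y, ψ (s + t) y = ψ s (ψ t y)) (h0 : ∀ y, ψ 0 y = y)
    (hθ : ∀ x t, F (ψ t x) = ψ (θ x t) (F x)) (y : N) (ε : ℝ) (j : ℕ) :
    (fun x => ψ ε (F x))^[j] y = ψ (disp θ F y j ε) (F^[j] y) := by
  induction j with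
  | zero => exact (h0 y).symm
  | succ j ih =>
    rw [Function.iterate_succ_apply', ih, Function.iterate_succ_apply' F]
    show ψ ε (F (ψ (disp θ F y j ε) (F^[j] y))) = ψ (ε + θ (F^[j] y) (disp θ F y j ε)) (F (F^[j] y))
    rw [hθ, hadd]

theorem disp_cont (hc : ∀ x, Continuous (θ x)) (y : N) (j : ℕ) : Continuous (disp θ F y j) := by
  induction j with
  | zero => exact continuous_const
  | succ j ih => exact continuous_id.add ((hc _).comp ih)

theorem disp_nonneg (hp : ∀ x t, 0 ≤ t → 0 ≤ θ x t) (y : N) {ε : ℝ} (hε : 0 ≤ ε) (j : ℕ) :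
    0 ≤ disp θ F y j ε := by
  induction j with
  | zero => exact le_rfl
  | succ j ih => exact add_nonneg hε (hp _ _ ih)

theorem disp_nonpos (hn : ∀ x t, t ≤ 0 → θ x t ≤ 0) (y : N) {ε : ℝ} (hε : ε ≤ 0) (j : ℕ) :
    disp θ F y j ε ≤ 0 := by
  induction j with
  | zero => exact le_rfl
  | succ j ih => exact add_nonpos hε (hn _ _ ih)

/-- **Closing by moving along the flow.** -/
theorem push (hadd : ∀ s t y, ψ (s + t) y = ψ s (ψ t y)) (h0 : ∀ y, ψ 0 y = y)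
    (hθ : ∀ x t, F (ψ t x) = ψ (θ x t) (F x)) (hc : ∀ x, Continuous (θ x))
    (hp : ∀ x t, 0 ≤ t → 0 ≤ θ x t) (hn : ∀ x t, t ≤ 0 → θ x t ≤ 0) {y : N} {n : ℕ} (hn1 : 1 ≤ n)
    {d : ℝ} (hd : F^[n] y = ψ d y) : ∃ ε : ℝ, |ε| ≤ |d| ∧ (fun x => ψ ε (F x))^[n] y = y := by
  obtain ⟨m, rfl⟩ : ∃ m, n = m + 1 := ⟨n - 1, by omega⟩
  have hu0 : disp θ F y (m + 1) 0 = 0 :=
    le_antisymm (disp_nonpos hn y le_rfl _) (disp_nonneg hp y le_rfl _)
  have hcont := disp_cont (F := F) hc y (m + 1)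
  obtain ⟨ε, hε, hεd⟩ : ∃ ε : ℝ, |ε| ≤ |d| ∧ disp θ F y (m + 1) ε = -d := by
    rcases le_total 0 d with hd0 | hd0
    · have h1 : disp θ F y (m + 1) (-d) ≤ -d := by
        show -d + θ (F^[m] y) (disp θ F y m (-d)) ≤ -d
        have := hn (F^[m] y) _ (disp_nonpos (F := F) hn y (show -d ≤ 0 by linarith) m)
        linarith
      have h2 : -d ≤ disp θ F y (m + 1) 0 := by rw [hu0]; linarith
      obtain ⟨ε, ⟨hε1, hε2⟩, hε⟩ := intermediate_value_Icc (show -d ≤ 0 by linarith)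
        hcont.continuousOn ⟨h1, h2⟩
      exact ⟨ε, by rw [abs_le, abs_of_nonneg hd0]; constructor <;> linarith, hε⟩
    · have h1 : -d ≤ disp θ F y (m + 1) (-d) := by
        show -d ≤ -d + θ (F^[m] y) (disp θ F y m (-d))
        have := hp (F^[m] y) _ (disp_nonneg (F := F) hp y (show 0 ≤ -d by linarith) m)
        linarith
      have h2 : disp θ F y (m + 1) 0 ≤ -d := by rw [hu0]; linarith
      obtain ⟨ε, ⟨hε1, hε2⟩, hε⟩ := intermediate_value_Icc (show 0 ≤ -d by linarith)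
        hcont.continuousOn ⟨h2, h1⟩
      exact ⟨ε, by rw [abs_le, abs_of_nonpos hd0]; constructor <;> linarith, hε⟩
  refine ⟨ε, hε, ?_⟩
  rw [iter_push hadd h0 hθ, hεd, hd, ← hadd, neg_add_cancel, h0]

end push

variable {n : ℕ} {N : Type u} [TopologicalSpace N] [T2Space N] [CompactSpace N]
  [ChartedSpace (V n) N] [IsManifold (𝓡 n) ∞ N]

/-- **The closing lemma at limits of points which can be closed along a flow.** -/
theorem closable_of_push {r : ℕ∞} (hr : 1 ≤ r) (F : DiffM n N r) {ψ : ℝ → N → N}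
    (hψ : IsFlow n N ψ) (z : N)
    (hP : ∀ W ∈ 𝓝 z, ∀ κ : ℝ, 0 < κ → ∃ y ∈ W, ∃ ε : ℝ, |ε| < κ ∧
      IsPer (fun x => ψ ε (F x)) y) : Closable n N r F z := by
  intro U hU hFU
  have hr' : (r : WithTop ℕ∞) ≤ ∞ := by exact_mod_cast le_top
  obtain ⟨χ, hχ⟩ := Pool.Agent.W699.SC.gc n N z
  obtain ⟨Ψ, κ, hκ, hΨ0, hΨs, hΨs', hΨt⟩ := Pool.Agent.W782.SC.psi n N ⊤ χ z hχ
  let T : V n → DiffM n N r := fun x =>
    { toEquiv := (Ψ x).toEquiv
      contMDiff_toFun := (Ψ x).contMDiff_toFun.of_le hr'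
      contMDiff_invFun := (Ψ x).contMDiff_invFun.of_le hr' }
  have hcψ : ∀ s : ℝ, ContMDiff (𝓡 n) (𝓡 n) ∞ (ψ s) := fun s =>
    hψ.smooth.comp (contMDiff_const.prodMk contMDiff_id)
  let S : ℝ → DiffM n N r := fun s =>
    { toFun := ψ s
      invFun := ψ (-s)
      left_inv := fun y => by
        show ψ (-s) (ψ s y) = y
        rw [← hψ.add, neg_add_cancel, hψ.zero]
      right_inv := fun y => by
        show ψ s (ψ (-s) y) = y
        rw [← hψ.add, add_neg_cancel, hψ.zero]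
      contMDiff_toFun := (hcψ s).of_le hr'
      contMDiff_invFun := (hcψ (-s)).of_le hr' }
  obtain ⟨H, hH⟩ : ∃ H : V n × ℝ → DiffM n N r, ∀ p y,
      H p y = (Ψ p.1).symm (ψ p.2 (F (Ψ p.1 y))) :=
    ⟨fun p => (T p.1).trans (F.trans ((S p.2).trans (T p.1).symm)), fun p y => rfl⟩
  have hΨ0' : ∀ y, (Ψ 0).symm y = y := by
    intro y
    have := (Ψ 0).symm_apply_apply y
    rwa [hΨ0] at this
  have hH0 : H 0 = F := by
    ext y
    rw [hH]
    show (Ψ 0).symm (ψ 0 (F (Ψ 0 y))) = F y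
    rw [hψ.zero, hΨ0, hΨ0']
  have hfam : IsFam n N r H := by
    intro y
    have e1 : (fun p : (V n × ℝ) × N => H p.1 p.2) =
        fun p => (Ψ p.1.1).symm (ψ p.1.2 (F (Ψ p.1.1 p.2))) := by
      funext p
      exact hH _ _
    rw [e1]
    have c1 : ContMDiff (𝓘(ℝ, V n × ℝ).prod (𝓡 n)) (𝓡 n) ∞
        (fun p : (V n × ℝ) × N => p.1.1) :=
      (contDiff_fst.contMDiff).comp contMDiff_fst
    have c2 : ContMDiff (𝓘(ℝ, V n × ℝ).prod (𝓡 n)) 𝓘(ℝ, ℝ) ∞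
        (fun p : (V n × ℝ) × N => p.1.2) :=
      (contDiff_snd.contMDiff).comp contMDiff_fst
    have s1 : ContMDiff (𝓘(ℝ, V n × ℝ).prod (𝓡 n)) (𝓡 n) r
        (fun p : (V n × ℝ) × N => Ψ p.1.1 p.2) :=
      (hΨs.comp (c1.prodMk contMDiff_snd)).of_le hr'
    have s2 : ContMDiff (𝓘(ℝ, V n × ℝ).prod (𝓡 n)) (𝓡 n) r
        (fun p : (V n × ℝ) × N => F (Ψ p.1.1 p.2)) :=
      F.contMDiff.comp s1
    have s3 : ContMDiff (𝓘(ℝ, V n × ℝ).prod (𝓡 n)) (𝓡 n) r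
        (fun p : (V n × ℝ) × N => ψ p.1.2 (F (Ψ p.1.1 p.2))) :=
      (hψ.smooth.of_le hr').comp ((c2.of_le hr').prodMk s2)
    have s4 : ContMDiff (𝓘(ℝ, V n × ℝ).prod (𝓡 n)) ((𝓡 n).prod (𝓡 n)) r
        (fun p : (V n × ℝ) × N => ((p.1.1, ψ p.1.2 (F (Ψ p.1.1 p.2))) : V n × N)) :=
      (c1.of_le hr').prodMk s3
    have s5 : ContMDiff ((𝓡 n).prod (𝓡 n)) (𝓡 n) r (fun p : V n × N => (Ψ p.1).symm p.2) :=
      hΨs'.of_le hr'
    exact (s5.comp s4).contMDiffAt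
  obtain ⟨κ', hκ', hmem⟩ := fam_mem r hr H hfam z U hU (by rw [hH0]; exact hFU)
  have hW : {y : N | y ∈ χ.source ∧ ‖χ y‖ < min κ κ'} ∈ 𝓝 z := by
    have h5 : χ.source ∈ 𝓝 z := χ.open_source.mem_nhds hχ.src
    have h6 : ContinuousAt (fun y => ‖χ y‖) z := (χ.continuousAt hχ.src).norm
    have h7 : ∀ᶠ y in 𝓝 z, ‖χ y‖ < min κ κ' := by
      have h8 : ‖χ z‖ < min κ κ' := by rw [hχ.zero, norm_zero]; exact lt_min hκ hκ'
      exact h6.eventually_lt_const h8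
    filter_upwards [h5, h7] with y hy1 hy2
    exact ⟨hy1, hy2⟩
  obtain ⟨y, ⟨hy1, hy2⟩, ε, hε, m, hm, hper⟩ := hP _ hW κ' hκ'
  obtain ⟨h1, h2⟩ := hΨt (χ y) (hy2.trans_le (min_le_left _ _)) z hχ.src
    (by rw [hχ.zero, norm_zero]; norm_num)
  have h3 : Ψ (χ y) z = y := by
    apply χ.injOn h1 hy1
    rw [h2, hχ.zero, zero_add]
  refine ⟨H (χ y, ε), hmem _ ?_, m, hm, ?_⟩
  · rw [Prod.norm_def]
    exact max_lt (hy2.trans_le (min_le_right _ _)) hε
  · have hit : ∀ (k : ℕ) (x : N), (H (χ y, ε))^[k] x =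
        (Ψ (χ y)).symm ((fun x => ψ ε (F x))^[k] (Ψ (χ y) x)) := by
      intro k
      induction k with
      | zero => intro x; exact ((Ψ (χ y)).symm_apply_apply x).symm
      | succ k ih =>
        intro x
        rw [Function.iterate_succ_apply', ih, hH, Function.iterate_succ_apply' (fun x => ψ ε (F x)),
          (Ψ (χ y)).apply_symm_apply]
    rw [hit, h3, hper]
    exact (Ψ (χ y)).symm_apply_eq.2 h3.symm

end Pool.Agent.X84.Fi
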