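import Pool.Agent.X84.Fi.Main
import Pool.Agent.X84.Fl.Ham

/-!
# Surfaces
-/

open scoped Topology ContDiff Manifold
open Set Filter

set_option autoImplicit false
set_option linter.unusedSectionVars false

noncomputable section

namespace Pool.Agent.X84.Fi

open Pool.Agent.H718R2.G Pool.Agent.TH290.CL Pool.Agent.W564.SC Pool.Agent.TH80.OMS
open Pool.Agent.X84.Fl Pool.Agent.X84.Fm.Defs
open Pool.Agent.Helper186 Pool.Agent.H826R2.Wein

universe u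

/-- linear algebra in the plane -/
theorem span_of_ker {W : Type*} [AddCommGroup W] [Module ℝ W] (h2 : Module.finrank ℝ W = 2)
    (l : W →ₗ[ℝ] ℝ) (hl : l ≠ 0) {x : W} (hx : l x = 0) (hx0 : x ≠ 0) {v : W} (hv : l v = 0) :
    ∃ c : ℝ, v = c • x := by
  have : FiniteDimensional ℝ W := FiniteDimensional.of_finrank_pos (by omega)
  have h3 := l.finrank_range_add_finrank_ker
  have h4 : Module.finrank ℝ (LinearMap.range l) = 1 := by
    rw [LinearMap.range_eq_top.2 (LinearMap.surjective hl), finrank_top, Module.finrank_self]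
  have h5 : Module.finrank ℝ (LinearMap.ker l) = 1 := by omega
  obtain ⟨c, hc⟩ := (finrank_eq_one_iff_of_nonzero' (⟨x, hx⟩ : LinearMap.ker l)
    (fun h => hx0 (congrArg Subtype.val h))).1 h5 ⟨v, hv⟩
  exact ⟨c, (congrArg Subtype.val hc).symm⟩

variable {n : ℕ} {N : Type u} [TopologicalSpace N] [T2Space N] [CompactSpace N]
  [ChartedSpace (V n) N] [IsManifold (𝓡 n) ∞ N] {r : ℕ∞}

/-- the Hamiltonian field -/
theorem exists_sit (hr : 1 ≤ r) (F : DiffM n N r) {h : N → ℝ}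
    (hh : ContMDiff (𝓡 n) 𝓘(ℝ, ℝ) ∞ h) (hF : ∀ x, h (F x) = h x)
    {B : (x : N) → TangentSpace (𝓡 n) x →L[ℝ] TangentSpace (𝓡 n) x →L[ℝ] ℝ}
    (hB : Oriented (V n) F B) :
    ∃ X : (x : N) → TangentSpace (𝓡 n) x, Sit F X h ∧
      (∀ x v, B x (X x) v = mfderiv (𝓡 n) 𝓘(ℝ, ℝ) h x v) ∧
      ∀ x, mfderiv (𝓡 n) 𝓘(ℝ, ℝ) h x (X x) = 0 := by
  obtain ⟨hBs, halt', hnd', c, hc, hc0, hcF'⟩ := hB
  have halt : ∀ x u, B x u u = 0 := halt'
  have hnd : ∀ x u, (∀ v, B x u v = 0) → u = 0 := hnd'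
  have hcF : ∀ x u v, B (F x) (mfderiv (𝓡 n) (𝓡 n) F x u) (mfderiv (𝓡 n) (𝓡 n) F x v) =
    c x * B x u v := hcF'
  let q : C^∞⟮𝓡 n, N; 𝓘(ℝ, ℝ), ℝ⟯ := ⟨h, hh⟩
  obtain ⟨X, hXe⟩ : ∃ X : (x : N) → TangentSpace (𝓡 n) x,
      X = Pool.Agent.X84.Fl.opB (E := V n) hnd q := ⟨_, rfl⟩
  have hXs : SmF (E := V n) X := by
    rw [hXe]
    exact Pool.Agent.X84.Fl.opB_smooth (E := V n) hBs hnd q
  have hX : ∀ x v, B x (X x) v = mfderiv (𝓡 n) 𝓘(ℝ, ℝ) h x v := by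
    intro x v
    rw [hXe]
    exact Pool.Agent.X84.Fl.opB_spec (E := V n) hnd q x v
  have h0 : ∀ x, mfderiv (𝓡 n) 𝓘(ℝ, ℝ) h x (X x) = 0 := fun x => by
    rw [← hX]
    exact halt x _
  have hrne : (r : WithTop ℕ∞) ≠ 0 := by
    have : (1 : WithTop ℕ∞) ≤ (r : WithTop ℕ∞) := by exact_mod_cast hr
    exact (lt_of_lt_of_le zero_lt_one this).ne'
  have hFd : ∀ y, MDifferentiableAt (𝓡 n) (𝓡 n) F y := fun y =>
    F.contMDiff.contMDiffAt.mdifferentiableAt hrne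
  have hchain : ∀ x v, mfderiv (𝓡 n) 𝓘(ℝ, ℝ) h (F x) (mfderiv (𝓡 n) (𝓡 n) F x v) =
      mfderiv (𝓡 n) 𝓘(ℝ, ℝ) h x v := by
    intro x v
    have e : h = h ∘ F := by
      funext y
      exact (hF y).symm
    have h1 := mfderiv_comp x (hh.contMDiffAt.mdifferentiableAt (by simp) :
      MDifferentiableAt (𝓡 n) 𝓘(ℝ, ℝ) h (F x)) (hFd x)
    rw [← e] at h1
    exact (DFunLike.congr_fun h1 v).symm
  refine ⟨X, ⟨hXs, hh, hF, h0, c, hc, hc0, ?_⟩, hX, h0⟩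
  intro x
  have key : ∀ w, B (F x) (mfderiv (𝓡 n) (𝓡 n) F x (X x)) w = B (F x) (c x • X (F x)) w := by
    intro w
    obtain ⟨v, rfl⟩ : ∃ v, mfderiv (𝓡 n) (𝓡 n) F x v = w := by
      have h3 := (F.mfderivToContinuousLinearEquiv hrne x).surjective w
      obtain ⟨v, hv⟩ := h3
      exact ⟨v, hv⟩
    have h4 : B (F x) (c x • X (F x)) (mfderiv (𝓡 n) (𝓡 n) F x v) =
        c x * B (F x) (X (F x)) (mfderiv (𝓡 n) (𝓡 n) F x v) := by
      rw [map_smul]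
      rfl
    rw [h4, hcF, hX, hX, hchain]
  exact Pool.Agent.X84.Fl.sharp_unique (E := V n) hnd key

/-- on a surface all noncritical points are regular -/
theorem surf_regular {N : Type u} [TopologicalSpace N] [T2Space N] [CompactSpace N]
    [ChartedSpace (V 2) N] [IsManifold (𝓡 2) ∞ N] {h : N → ℝ}
    {B : (x : N) → TangentSpace (𝓡 2) x →L[ℝ] TangentSpace (𝓡 2) x →L[ℝ] ℝ}
    {X : (x : N) → TangentSpace (𝓡 2) x}
    (hX : ∀ x v, B x (X x) v = mfderiv (𝓡 2) 𝓘(ℝ, ℝ) h x v)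
    (h0 : ∀ x, mfderiv (𝓡 2) 𝓘(ℝ, ℝ) h x (X x) = 0) {x : N} (hx : x ∉ CritSet (V 2) h) :
    Rg X h x := by
  have hd : mfderiv (𝓡 2) 𝓘(ℝ, ℝ) h x ≠ 0 := hx
  have hX0 : X x ≠ 0 := by
    intro hz
    apply hd
    apply ContinuousLinearMap.ext
    intro v
    rw [← hX, hz, map_zero]
    rfl
  refine ⟨hX0, fun v hv => ?_⟩
  have hfr : Module.finrank ℝ (V 2) = 2 := by simp
  obtain ⟨l, hle⟩ : ∃ l : V 2 →ₗ[ℝ] ℝ, ∀ v, l v = mfderiv (𝓡 2) 𝓘(ℝ, ℝ) h x v :=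
    ⟨(mfderiv (𝓡 2) 𝓘(ℝ, ℝ) h x).toLinearMap, fun _ => rfl⟩
  have hl : l ≠ 0 := by
    intro hz
    apply hd
    apply ContinuousLinearMap.ext
    intro v
    have h3 := hle v
    rw [hz] at h3
    exact h3.symm
  exact span_of_ker (W := V 2) hfr l hl ((hle _).trans (h0 x)) hX0 ((hle _).trans hv)

/-- **Surfaces.** -/
theorem surface {N : Type u} [TopologicalSpace N] [T2Space N] [CompactSpace N]
    [ChartedSpace (V 2) N] [IsManifold (𝓡 2) ∞ N] (hr : 1 ≤ r) (F : DiffM 2 N r) {h : N → ℝ}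
    (hh : ContMDiff (𝓡 2) 𝓘(ℝ, ℝ) ∞ h) (hF : ∀ x, h (F x) = h x)
    (hB : ∃ B, Oriented (V 2) F B) :
    (∀ z ∈ closure (Omega F \ CritSet (V 2) h), Closable 2 N r F z) ∧
      (((Omega F ∩ CritSet (V 2) h) \ closure (Per F)).Countable →
        ∀ z ∈ Omega F, Closable 2 N r F z) := by
  obtain ⟨B, hB⟩ := hB
  obtain ⟨X, hS, hX, h0⟩ := exists_sit hr F hh hF hB
  constructor
  · intro z hz
    have h1 : Omega F \ CritSet (V 2) h ⊆ {y | y ∈ Omega F ∧ Rg X h y} :=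
      fun y hy => ⟨hy.1, surf_regular hX h0 hy.2⟩
    exact hS.closable hr (closure_mono h1 hz)
  · intro hc z hz
    have h1 : {y | y ∈ Omega F ∧ ¬ Rg X h y} \ closure (Per F) ⊆
        (Omega F ∩ CritSet (V 2) h) \ closure (Per F) := by
      rintro y ⟨⟨hy1, hy2⟩, hy3⟩
      refine ⟨⟨hy1, ?_⟩, hy3⟩
      by_contra hn
      exact hy2 (surf_regular hX h0 hn)
    exact hS.closable_countable hr (hc.mono h1) hz

end Pool.Agent.X84.Fi
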