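import Pool.Agent.X84.Fm.Par
import Pool.Agent.X84.Fm.Defs
import Pool.Agent.X84.Fi.Push

/-!
# Maps which preserve the direction of a field
-/

open scoped Topology ContDiff Manifold
open Set Filter

set_option autoImplicit false
set_option linter.unusedSectionVars false

noncomputable section

namespace Pool.Agent.X84.Fi

open Pool.Agent.H718R2.G Pool.Agent.TH290.CL Pool.Agent.W564.SC
open Pool.Agent.X84.Fl Pool.Agent.X84.Fm
open Pool.Agent.Helper186 Pool.Agent.H826R2.Wein

universe u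

variable {n : ℕ} {N : Type u} [TopologicalSpace N] [T2Space N] [CompactSpace N]
  [ChartedSpace (V n) N] [IsManifold (𝓡 n) ∞ N]

/-- the flow of a smooth field is a smooth flow -/
theorem isFlow_of {Z : (x : N) → TangentSpace (𝓡 n) x} (hZ : SmF (E := V n) Z)
    {φ : Flow ℝ N} (hφ : IsFl (E := V n) Z φ) : IsFlow n N (fun t x => φ t x) where
  smooth := by
    have : IsManifold (𝓡 n) 1 N := IsManifold.of_le (n := ∞) (by simp)
    have h1 := contMDiff_flow (I := 𝓡 n) hZ (Fl := fun x t => φ t x)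
      (fun x => Flow.map_zero_apply _ _) hφ
    have h2 : ContMDiff (𝓘(ℝ, ℝ).prod (𝓡 n)) ((𝓡 n).prod 𝓘(ℝ, ℝ)) ∞
        (fun q : ℝ × N => (q.2, q.1)) := contMDiff_snd.prodMk contMDiff_fst
    exact h1.comp h2
  zero y := Flow.map_zero_apply _ _
  add s t y := φ.map_add s t y

/-- **The time change.** -/
theorem exists_theta {r : ℕ∞} (hr : 1 ≤ r) (F : DiffM n N r)
    {X : (x : N) → TangentSpace (𝓡 n) x} (hX : SmF (E := V n) X)
    {φ : Flow ℝ N} (hφ : IsFl (E := V n) X φ) {lam : N → ℝ} (hl : Continuous lam)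
    (hl0 : ∀ x, 0 < lam x) (hF : ∀ x, mfderiv (𝓡 n) (𝓡 n) F x (X x) = lam x • X (F x)) :
    ∃ θ : N → ℝ → ℝ, (∀ x t, F (φ t x) = φ (θ x t) (F x)) ∧ (∀ x, Continuous (θ x)) ∧
      (∀ x t, 0 ≤ t → 0 ≤ θ x t) ∧ ∀ x t, t ≤ 0 → θ x t ≤ 0 := by
  rcases isEmpty_or_nonempty N with hN | hN
  · exact ⟨fun x _ => hN.elim x, fun x => hN.elim x, fun x => hN.elim x, fun x => hN.elim x,
      fun x => hN.elim x⟩
  obtain ⟨x₀, -, hx₀⟩ := isCompact_univ.exists_isMinOn (univ_nonempty (α := N)) hl.continuousOn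
  have hmin : ∀ x, lam x₀ ≤ lam x := fun x => hx₀ (mem_univ x)
  have hc : ∀ x, Continuous fun s => lam (φ s x) := fun x =>
    hl.comp (φ.continuous continuous_id continuous_const)
  let θ : N → ℝ → ℝ := fun x t => ∫ s in (0 : ℝ)..t, lam (φ s x)
  have hd : ∀ x t, HasDerivAt (θ x) (lam (φ t x)) t := fun x t =>
    intervalIntegral.integral_hasDerivAt_right ((hc x).intervalIntegrable _ _)
      ((hc x).stronglyMeasurableAtFilter _ _) (hc x).continuousAt
  have hθ0 : ∀ x, θ x 0 = 0 := fun x => intervalIntegral.integral_same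
  have hcont : ∀ x, Continuous (θ x) := fun x =>
    continuous_iff_continuousAt.2 fun t => (hd x t).continuousAt
  have hmono : ∀ x, StrictMono (θ x) := fun x =>
    strictMono_of_deriv_pos fun t => by rw [(hd x t).deriv]; exact hl0 _
  have hpos : ∀ x t, 0 ≤ t → 0 ≤ θ x t := fun x t ht => by
    have := (hmono x).monotone ht
    rwa [hθ0] at this
  have hneg : ∀ x t, t ≤ 0 → θ x t ≤ 0 := fun x t ht => by
    have := (hmono x).monotone ht
    rwa [hθ0] at this
  have hlow : ∀ x, Monotone fun t => θ x t - lam x₀ * t := by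
    intro x
    refine monotone_of_deriv_nonneg (fun t => ?_) fun t => ?_
    · exact ((hd x t).sub ((hasDerivAt_id t).const_mul _)).differentiableAt
    · have := ((hd x t).sub ((hasDerivAt_id t).const_mul (lam x₀))).deriv
      have e : (fun t => θ x t - lam x₀ * t) = (θ x - fun y => lam x₀ * id y) := rfl
      rw [e, this, mul_one]
      linarith [hmin (φ t x)]
  have hsurj : ∀ x, Function.Surjective (θ x) := by
    intro x
    apply (hcont x).surjective
    · refine tendsto_atTop_mono' atTop ?_ (tendsto_id.const_mul_atTop (hl0 x₀))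
      filter_upwards [eventually_ge_atTop 0] with t ht
      have := hlow x ht
      simp only [hθ0, mul_zero, sub_zero] at this
      simp only [id]
      linarith
    · refine tendsto_atBot_mono' atBot ?_ (tendsto_id.const_mul_atBot (hl0 x₀))
      filter_upwards [eventually_le_atBot 0] with t ht
      have := hlow x ht
      simp only [hθ0, mul_zero, sub_zero] at this
      simp only [id]
      linarith
  refine ⟨θ, fun x t => ?_, hcont, hpos, hneg⟩
  -- the inverse of the time change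
  let e : ℝ ≃o ℝ := (hmono x).orderIsoOfSurjective (θ x) (hsurj x)
  have he : ∀ t, e t = θ x t := fun t => rfl
  let g : ℝ → ℝ := e.symm
  have hg : ∀ s, θ x (g s) = s := fun s => e.apply_symm_apply s
  have hg' : ∀ t, g (θ x t) = t := fun t => e.symm_apply_apply t
  have hgc : Continuous g := e.symm.continuous
  have hgd : ∀ s, HasDerivAt g (lam (φ (g s) x))⁻¹ s := fun s =>
    HasDerivAt.of_local_left_inverse hgc.continuousAt (hd x (g s)) (hl0 _).ne'
      (Eventually.of_forall hg)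
  have hFd : ∀ y, MDifferentiableAt (𝓡 n) (𝓡 n) F y := fun y =>
    F.contMDiff.contMDiffAt.mdifferentiableAt (by
      have : (1 : WithTop ℕ∞) ≤ (r : WithTop ℕ∞) := by exact_mod_cast hr
      exact (lt_of_lt_of_le zero_lt_one this).ne')
  have hcurve : IsMIntegralCurve (I := 𝓡 n) (fun s => F (φ (g s) x)) X := by
    intro s
    have h1 : HasMFDerivAt 𝓘(ℝ, ℝ) 𝓘(ℝ, ℝ) g s
        (ContinuousLinearMap.smulRight (1 : ℝ →L[ℝ] ℝ) ((lam (φ (g s) x))⁻¹ : ℝ) : ℝ →L[ℝ] ℝ) :=
      (hgd s).hasFDerivAt.hasMFDerivAt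
    have h2 := hφ x (g s)
    have h3 := (hFd (φ (g s) x)).hasMFDerivAt
    have h4 := h3.comp s (h2.comp s h1)
    have h5 : ((mfderiv (𝓡 n) (𝓡 n) F (φ (g s) x)).comp
        ((ContinuousLinearMap.smulRight (1 : ℝ →L[ℝ] ℝ) (X (φ (g s) x))).comp
          (ContinuousLinearMap.smulRight (1 : ℝ →L[ℝ] ℝ) ((lam (φ (g s) x))⁻¹ : ℝ) : ℝ →L[ℝ] ℝ))) =
        ContinuousLinearMap.smulRight (1 : ℝ →L[ℝ] ℝ) (X (F (φ (g s) x))) := by
      apply ContinuousLinearMap.ext_ring
      show mfderiv (𝓡 n) (𝓡 n) F (φ (g s) x) (((1 : ℝ) • (lam (φ (g s) x))⁻¹) • X (φ (g s) x)) =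
        (1 : ℝ) • X (F (φ (g s) x))
      rw [one_smul, map_smul, hF, smul_smul, inv_mul_cancel₀ (hl0 _).ne']
    exact h5 ▸ h4
  have h6 := flow_unique hX hφ hcurve (θ x t)
  have hg0 : g 0 = 0 := by
    have := hg' 0
    rwa [hθ0] at this
  simp only [hg', hg0, Flow.map_zero_apply] at h6
  exact h6

end Pool.Agent.X84.Fi
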